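import Pool.Agent.Helper92.TN.GoalsW
import Pool.Agent.Helper65.VN.NNB

/-!
# Project TN (MP_a41896_nt), packet TN-RDX: reduction to the field generated by the points
-/

set_option autoImplicit false

open MvPolynomial

namespace Pool.Agent.Helper44.TN.RDX

open WeierstrassCurve
open Pool.Agent.Helper29.BL Pool.Agent.Helper92.Ru Pool.Agent.Helper42.SG
open Pool.Agent.Helper60.T3 (WL IP zd)
open Pool.Agent.Helper42.TN (SupN)
open Pool.Agent.Helper68.VN (Ix P0B mapS OnB)
open Pool.Agent.Helper92.TN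

noncomputable section

/-- a point with given coordinates -/
theorem exP {F : Type} [Field F] [CharZero F] (W : Affine F) [W.IsElliptic] (x s : F)
    (h : s ^ 2 = Bf W x) : ∃ P : W.Point, P ≠ 0 ∧ xc P = x ∧ ps P = s := by
  have h2 : (2 : F) ≠ 0 := two_ne_zero
  have hns : W.Nonsingular x ((s - (W.a₁ * x + W.a₃)) / 2) := by
    rw [← Affine.equation_iff_nonsingular, Affine.equation_iff]
    simp only [Bf, WeierstrassCurve.b₂, WeierstrassCurve.b₄, WeierstrassCurve.b₆] at h
    field_simp
    linear_combination h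
  refine ⟨Affine.Point.some x _ hns, ?_, rfl, ?_⟩
  · exact Affine.Point.some_ne_zero hns
  · show 2 * ((s - (W.a₁ * x + W.a₃)) / 2) + W.a₁ * x + W.a₃ = s
    field_simp
    ring

theorem exists_generic (K σ : Type) [Field K] : ∃ (Ω : Type) (_ : Field Ω) (_ : Algebra K Ω)
    (_ : IsAlgClosed Ω) (y : σ → Ω), AlgebraicIndependent K y := by
  let F := FractionRing (MvPolynomial σ K)
  let Ω := AlgebraicClosure F
  have hinj : Function.Injective (IsScalarTower.toAlgHom K (MvPolynomial σ K) Ω) := by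
    have h1 : Function.Injective (algebraMap (MvPolynomial σ K) F) :=
      IsFractionRing.injective (MvPolynomial σ K) F
    have h2 : Function.Injective (algebraMap F Ω) := (algebraMap F Ω).injective
    have h3 : ⇑(IsScalarTower.toAlgHom K (MvPolynomial σ K) Ω) =
        ⇑(algebraMap F Ω) ∘ ⇑(algebraMap (MvPolynomial σ K) F) := by
      funext x
      exact IsScalarTower.algebraMap_apply (MvPolynomial σ K) F Ω x
    rw [h3]
    exact h2.comp h1
  exact ⟨Ω, inferInstance, inferInstance, inferInstance, _,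
    (MvPolynomial.algebraicIndependent_X σ K).map' hinj⟩

theorem exSq {Ω : Type} [Field Ω] [IsAlgClosed Ω] (x : Ω) : ∃ s : Ω, s ^ 2 = x :=
  IsAlgClosed.exists_pow_nat_eq x (by norm_num)

/-- a flat-free polynomial is not zero -/
theorem ne_of_notFlat {K σ : Type} [Field K] [Fintype σ] (W : σ → Affine K) (a : σ)
    (g : MvPolynomial σ K) (h : NotFlat W a g) : g ≠ 0 := by
  classical
  rintro rfl
  let Ω₁ := AlgebraicClosure K
  obtain ⟨Ω₂, f2, a2, c2, y, hy⟩ := exists_generic Ω₁ {i : σ // i ≠ a}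
  letI := f2
  letI := a2
  letI : Algebra K Ω₂ := ((algebraMap Ω₁ Ω₂).comp (algebraMap K Ω₁)).toAlgebra
  haveI : IsScalarTower K Ω₁ Ω₂ := IsScalarTower.of_algebraMap_eq (fun _ => rfl)
  let X : σ → Ω₂ := fun i => if h : i ≠ a then y ⟨i, h⟩ else 0
  have hX : (fun i : {i : σ // i ≠ a} => X i) = y := by
    funext i
    simp only [X]
    rw [dif_pos i.2]
  choose Ψ hΨ using fun i => exSq (Bf (WL Ω₂ (W i)) (X i))
  have h1 := h Ω₁ Ω₂ X Ψ hΨ (map_zero _) (by rw [hX]; exact hy) (fun _ => 1) (by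
    refine Finset.sum_eq_zero fun b _ => ?_
    rw [map_zero, map_zero, mul_zero, mul_zero])
  exact one_ne_zero (congrFun h1 a)

theorem t (hA : ACLA) : RDX := by
  classical
  intro hI D0 m
  rcases m with _ | m
  · refine ⟨1, le_rfl, ?_⟩
    intro K _ _ σ _ _ W hW n hcard hm
    omega
  obtain ⟨h0, h1, hI⟩ := hI D0 m
  refine ⟨h0, h1, ?_⟩
  intro K _ _ σ _ _ W hW n hcard hm a g g0 hNF hg0 hdeg M e c hbig hc hsup Ω _ _ _ X Ψ X0 Ψ0
    hOn hg hg0' hind
  obtain rfl : m = n := by omega
  clear hm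
  obtain ⟨S, hS⟩ : ∃ S : Set Ω, S = Set.range (fun h : Fin m × σ => X h.1 h.2) ∪ Set.range X0 :=
    ⟨_, rfl⟩
  obtain ⟨hm1, hsub, -, -, -, hcl, -⟩ := hA K Ω S ∅
  haveI hAC : IsAlgClosed (acl K S) := hcl inferInstance
  haveI : CharZero (acl K S) := charZero_of_injective_algebraMap (algebraMap K (acl K S)).injective
  have hXm : ∀ j i, X j i ∈ acl K S := fun j i => hsub (by rw [hS]; exact Or.inl ⟨(j, i), rfl⟩)
  have hX0m : ∀ i, X0 i ∈ acl K S := fun i => hsub (by rw [hS]; exact Or.inr ⟨i, rfl⟩)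
  have hval : ∀ z : acl K S, algebraMap (acl K S) Ω z = (z : Ω) := fun _ => rfl
  have hBf : ∀ (i : σ) (z : acl K S), ((Bf (WL (acl K S) (W i)) z : acl K S) : Ω) =
      Bf (mapS Ω W i) (z : Ω) := by
    intro i z
    simp only [Bf, mapS, map_b₂, map_b₄, map_b₆]
    push_cast
    rfl
  have hsq : ∀ (i : σ) (x s : Ω), x ∈ acl K S → s ^ 2 = Bf (mapS Ω W i) x → s ∈ acl K S := by
    intro i x s hx hs
    obtain ⟨r, hr⟩ := exSq (Bf (WL (acl K S) (W i)) ⟨x, hx⟩)
    have h2 : (r : Ω) ^ 2 = s ^ 2 := by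
      rw [hs, ← hBf i ⟨x, hx⟩, ← hr]
      push_cast
      rfl
    rcases sq_eq_sq_iff_eq_or_eq_neg.1 h2 with h3 | h3
    · rw [← h3]
      exact r.2
    · rw [← neg_neg s, ← h3]
      exact neg_mem r.2
  have hΨm : ∀ j i, Ψ j i ∈ acl K S := fun j i => hsq i _ _ (hXm j i) (hOn.blk j i)
  have hΨ0m : ∀ i, Ψ0 i ∈ acl K S := fun i => hsq i _ _ (hX0m i) (hOn.ref i)
  have hP : ∀ j i, ∃ P : (WL (acl K S) (W i)).Point, P ≠ 0 ∧ xc P = ⟨X j i, hXm j i⟩ ∧
      ps P = ⟨Ψ j i, hΨm j i⟩ := by
    intro j i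
    haveI := hW i
    refine exP _ _ _ (Subtype.ext ?_)
    rw [hBf]
    push_cast
    exact hOn.blk j i
  have hP0 : ∀ i, ∃ P : (WL (acl K S) (W i)).Point, P ≠ 0 ∧ xc P = ⟨X0 i, hX0m i⟩ ∧
      ps P = ⟨Ψ0 i, hΨ0m i⟩ := by
    intro i
    haveI := hW i
    refine exP _ _ _ (Subtype.ext ?_)
    rw [hBf]
    push_cast
    exact hOn.ref i
  choose x hx1 hx2 hx3 using hP
  choose x0 hy1 hy2 hy3 using hP0
  have hinj : Function.Injective (acl K S).val := (acl K S).val.injective
  have hae : ∀ (Y : σ → acl K S) (p : MvPolynomial σ K),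
      (acl K S).val (aeval Y p) = aeval (fun i => (acl K S).val (Y i)) p := by
    intro Y p
    rw [← AlgHom.comp_apply, comp_aeval]
  have hTD : TD W a g g0 x x0 := by
    refine ⟨hcard, hx1, hy1, ?_, ?_, fun j => ne_of_notFlat W a (g j) (hNF j), hg0, ?_, ?_⟩
    · intro j
      apply hinj
      rw [hae, map_zero, ← hg j]
      congr 2
      funext i
      rw [hx2]
      rfl
    · apply hinj
      rw [hae, map_zero, ← hg0']
      congr 2
      funext i
      rw [hy2]
      rfl
    · rw [← AlgHom.algebraicIndependent_iff (acl K S).val hinj]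
      have he : (acl K S).val ∘ (Sum.elim
          (fun h : Fin m × {i : σ // i ≠ a} => xc (x h.1 h.2))
          (fun i : {i : σ // i ≠ a} => xc (x0 i))) =
          Sum.elim (fun h : Fin m × {i : σ // i ≠ a} => X h.1 h.2)
          (fun i : {i : σ // i ≠ a} => X0 i) := by
        funext h
        rcases h with h | h
        · show (acl K S).val (xc (x h.1 h.2)) = X h.1 h.2
          rw [hx2]
          rfl
        · show (acl K S).val (xc (x0 h)) = X0 h
          rw [hy2]
          rfl
      rw [he]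
      exact hind
    · intro z
      obtain ⟨hm2, -⟩ := hA K (acl K S) (Set.range (fun h : Fin m × σ => xc (x h.1 h.2)) ∪
        Set.range (fun i => xc (x0 i))) ∅
      rw [hm2]
      have h5 : IsAlgebraic (IntermediateField.adjoin K S) (z : Ω) := (hm1 _).1 z.2
      obtain ⟨S', hS'⟩ : ∃ S' : Set (acl K S), S' =
        Set.range (fun h : Fin m × σ => xc (x h.1 h.2)) ∪ Set.range (fun i => xc (x0 i)) :=
        ⟨_, rfl⟩
      rw [← hS']
      have h6 : (acl K S).val '' S' = S := by
        rw [hS', Set.image_union, ← Set.range_comp, ← Set.range_comp]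
        conv_rhs => rw [hS]
        congr 2
        · funext h
          show (acl K S).val (xc (x h.1 h.2)) = X h.1 h.2
          rw [hx2]
          rfl
        · funext i
          show (acl K S).val (xc (x0 i)) = X0 i
          rw [hy2]
          rfl
      have h7 : (IntermediateField.adjoin K S').map (acl K S).val = IntermediateField.adjoin K S := by
        rw [IntermediateField.adjoin_map, h6]
      rw [← h7] at h5
      exact (isAlgebraic_ringHom_iff_of_comp_eq
        ((IntermediateField.adjoin K S').equivMap (acl K S).val) (acl K S).val hinj (by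
          ext y
          rfl)).1 h5
  have hmain := hI K σ W hW a g g0 hdeg hNF M e c hbig hc hsup (acl K S) x x0 hTD
  intro hzero
  apply hmain
  apply hinj
  rw [map_zero, Pool.Agent.Helper65.VN.NNB.t_NNB, ← hzero]
  congr 1
  · funext j i
    rw [hx2]
    rfl
  · funext j i
    rw [hx3]
    rfl
  · funext i
    rw [hy2]
    rfl
  · funext i
    rw [hy3]
    rfl

end

end Pool.Agent.Helper44.TN.RDX
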